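import Pool.Agent.F5H.StmtsD

set_option autoImplicit false

open MeasureTheory Complex ComplexConjugate

namespace Pool.Agent.F5H.BC.H94

open Pool.Agent.BTL

/-- The basic inequalities for a form in `KM M`. -/
theorem km_facts {M : ℝ} {A : ℝ × ℝ × ℝ} (hM : 1 ≤ M) (hA : A ∈ KM M) :
    1 / M ≤ A.1 ∧ A.1 ≤ M ∧ A.2.2 ≤ M ∧ |A.2.1| ≤ M * A.1 ∧ A.2.1 ^ 2 ≤ M * A.1 ∧
      1 / M ^ 2 ≤ disc A := by
  have hM0 : 0 < M := by linarith
  have h10 := hA (1, 0)
  have h01 := hA (0, 1)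
  have hd := KM_disc hM hA
  simp only [qf, nr] at h10 h01
  norm_num at h10 h01
  have hα : 1 / M ≤ A.1 := by rw [one_div]; exact h10.1
  have hα0 : 0 < A.1 := lt_of_lt_of_le (by positivity) hα
  have hdpos : 0 < disc A := lt_of_lt_of_le (by positivity) hd.1
  have hb : A.2.1 ^ 2 ≤ A.1 * A.2.2 := by
    unfold disc at hdpos
    linarith
  have hMα : 1 ≤ M * A.1 := by
    have := mul_le_mul_of_nonneg_left hα hM0.le
    rwa [mul_one_div_cancel hM0.ne'] at this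
  refine ⟨hα, h10.2, h01.2, ?_, ?_, hd.1⟩
  · apply abs_le_of_sq_le_sq _ (by positivity)
    nlinarith [mul_nonneg hα0.le hM0.le]
  · nlinarith [mul_nonneg hα0.le hM0.le]

/-- The algebraic core: the form with coordinates `(a, b)` in the frame. -/
theorem core (A A' : ℝ × ℝ × ℝ) (hα : 0 < A.1) (a b1 b2 lam : ℝ)
    (hlam : 0 < lam) (h1 : A'.1 = A.1 * (a + b1))
    (h2 : A'.2.1 = A.2.1 * (a + b1) + √A.1 * √(disc A / A.1) * b2)
    (h3 : A'.2.2 = (A.2.1 / √A.1) ^ 2 * (a + b1) + √(disc A / A.1) ^ 2 * (a - b1) +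
      2 * b2 * (A.2.1 / √A.1) * √(disc A / A.1))
    (hq : lam ^ 2 + (b1 ^ 2 + b2 ^ 2) / 4 = a * lam) :
    A' = Ach A lam (⟨b1 / (2 * lam), b2 / (2 * lam)⟩ : ℂ) := by
  have hs : √A.1 ^ 2 = A.1 := Real.sq_sqrt hα.le
  have hs0 : √A.1 ≠ 0 := (Real.sqrt_pos.2 hα).ne'
  set s := √A.1 with hsd
  set q2 := √(disc A / A.1) with hq2d
  have hm : lam * (1 + (b1 / (2 * lam)) ^ 2 + (b2 / (2 * lam)) ^ 2) = a := by
    field_simp
    linarith
  have e1 : 2 * lam * (b1 / (2 * lam)) = b1 := by field_simp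
  have e2 : 2 * lam * (b2 / (2 * lam)) = b2 := by field_simp
  set m1 := b1 / (2 * lam) with hm1
  set m2 := b2 / (2 * lam) with hm2
  set q1 := A.2.1 / s with hq1
  have hsq : s * q1 = A.2.1 := by
    rw [hq1]; field_simp
  refine Prod.ext ?_ (Prod.ext ?_ ?_)
  · simp only [Ach, gA, normSq_apply]
    simp only [add_re, add_im, mul_re, mul_im, conj_re, conj_im]
    rw [h1, ← hm]
    simp only [← hsd]
    linear_combination (-A.1) * e1 + (-(lam * ((1 + m1) ^ 2 + m2 ^ 2))) * hs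
  · simp only [Ach, gA]
    simp only [add_re, add_im, mul_re, mul_im, conj_re, conj_im]
    simp only [← hsd, ← hq2d, ← hq1]
    rw [h2]
    linear_combination (-(a + b1)) * hsq - s * q1 * hm - s * q1 * e1 - s * q2 * e2
  · simp only [Ach, gA, normSq_apply]
    simp only [add_re, add_im, mul_re, mul_im, conj_re, conj_im]
    simp only [← hsd, ← hq2d, ← hq1]
    rw [h3]
    linear_combination (-(q1 ^ 2 + q2 ^ 2)) * hm - (q1 ^ 2 - q2 ^ 2) * e1 - 2 * q1 * q2 * e2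

/-- Row C_CHE. -/
theorem c_che : CHEStmt := by
  refine ⟨200, by norm_num, ?_⟩
  intro A A' M d hM hA hd hd8 hC
  obtain ⟨hα, hαM, hγM, hβ, hβ2, hD⟩ := km_facts hM hA
  have hM0 : 0 < M := by linarith
  have hα0 : 0 < A.1 := lt_of_lt_of_le (by positivity) hα
  have hD0 : 0 < disc A := lt_of_lt_of_le (by positivity) hD
  set η := ‖A' - A‖ with hη
  have hη0 : 0 ≤ η := norm_nonneg _
  have hcomp : |A'.1 - A.1| ≤ η ∧ |A'.2.1 - A.2.1| ≤ η ∧ |A'.2.2 - A.2.2| ≤ η := by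
    have h : ‖A' - A‖ ≤ η := le_refl _
    simp only [Prod.norm_def, Real.norm_eq_abs, sup_le_iff, Prod.fst_sub, Prod.snd_sub] at h
    exact ⟨h.1, h.2.1, h.2.2⟩
  obtain ⟨hx, hy, hz⟩ := hcomp
  set X := A'.1 - A.1 with hXd
  set Y := A'.2.1 - A.2.1 with hYd
  set Z := A'.2.2 - A.2.2 with hZd
  set s := √A.1 with hsd
  set q2 := √(disc A / A.1) with hq2d
  have hs : s ^ 2 = A.1 := Real.sq_sqrt hα0.le
  have hs0 : 0 < s := Real.sqrt_pos.2 hα0
  have hq2 : q2 ^ 2 = disc A / A.1 := Real.sq_sqrt (by positivity)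
  have hq20 : 0 < q2 := Real.sqrt_pos.2 (by positivity)
  have hsq2 : (s * q2) ^ 2 = disc A := by
    rw [mul_pow, hs, hq2]; field_simp
  clear_value s q2
  -- the coordinates
  set e1 := A'.1 / A.1 with he1
  set b2 := (A'.2.1 - A.2.1 * e1) / (s * q2) with hb2
  set g := (A.1 * A'.2.2 - 2 * A.2.1 * A'.2.1 + A.2.1 ^ 2 * e1) / disc A with hg
  clear_value e1 b2 g
  have he1' : e1 - 1 = X / A.1 := by
    rw [he1, hXd]; field_simp
  have hb2' : b2 = (Y - A.2.1 * (X / A.1)) / (s * q2) := by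
    rw [hb2, ← he1', hYd]
    congr 1
    ring
  have hg' : g - 1 = (A.1 * Z - 2 * A.2.1 * Y + A.2.1 ^ 2 * (X / A.1)) / disc A := by
    rw [hg, ← he1', hYd, hZd, eq_div_iff hD0.ne', sub_mul, div_mul_cancel₀ _ hD0.ne', one_mul]
    unfold disc
    ring
  -- bounds
  have hMα : 1 / A.1 ≤ M := by
    rw [div_le_iff₀ hα0]
    have := mul_le_mul_of_nonneg_left hα hM0.le
    rwa [mul_one_div_cancel hM0.ne'] at this
  have hXα : |X / A.1| ≤ M * η := by
    rw [abs_div, abs_of_pos hα0, div_eq_mul_one_div, mul_comm]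
    exact mul_le_mul hMα hx (abs_nonneg _) hM0.le
  have hβX : |A.2.1 * (X / A.1)| ≤ M * η := by
    have h1 : A.2.1 * (X / A.1) = (A.2.1 / A.1) * X := by field_simp
    rw [h1, abs_mul, abs_div, abs_of_pos hα0]
    have h2 : |A.2.1| / A.1 ≤ M := by
      rw [div_le_iff₀ hα0]; exact hβ
    exact mul_le_mul h2 hx (abs_nonneg _) hM0.le
  have hβ2X : |A.2.1 ^ 2 * (X / A.1)| ≤ M * η := by
    have h1 : A.2.1 ^ 2 * (X / A.1) = (A.2.1 ^ 2 / A.1) * X := by field_simp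
    rw [h1, abs_mul, abs_div, abs_of_pos hα0, abs_of_nonneg (sq_nonneg _)]
    have h2 : A.2.1 ^ 2 / A.1 ≤ M := by
      rw [div_le_iff₀ hα0]; exact hβ2
    exact mul_le_mul h2 hx (abs_nonneg _) hM0.le
  have hβM : |A.2.1| ≤ M := by
    apply abs_le_of_sq_le_sq _ hM0.le
    nlinarith
  have hsqM : 1 / M ≤ s * q2 := by
    apply le_of_sq_le_sq _ (by positivity)
    rw [hsq2, div_pow, one_pow]
    exact hD
  have hM2 : 1 ≤ M ^ 2 := one_le_pow₀ hM
  have hM3 : M ^ 2 ≤ M ^ 4 := pow_le_pow_right₀ hM (by norm_num)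
  have hM4 : M ≤ M ^ 4 := le_self_pow₀ hM (by norm_num)
  have hM5 : M ^ 3 ≤ M ^ 4 := pow_le_pow_right₀ hM (by norm_num)
  have hb2b : |b2| ≤ 2 * M ^ 2 * η := by
    rw [hb2', abs_div, abs_of_pos (mul_pos hs0 hq20), div_le_iff₀ (mul_pos hs0 hq20)]
    have h1 : |Y - A.2.1 * (X / A.1)| ≤ η + M * η := (abs_sub _ _).trans (add_le_add hy hβX)
    have h2 : 2 * M ^ 2 * η * (1 / M) ≤ 2 * M ^ 2 * η * (s * q2) :=
      mul_le_mul_of_nonneg_left hsqM (by positivity)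
    have h3 : 2 * M ^ 2 * η * (1 / M) = 2 * M * η := by field_simp
    rw [h3] at h2
    nlinarith [mul_le_mul_of_nonneg_right hM hη0]
  have hgb : |g - 1| ≤ 4 * M ^ 3 * η := by
    rw [hg', abs_div, abs_of_pos hD0, div_le_iff₀ hD0]
    have h1 : |A.1 * Z - 2 * A.2.1 * Y + A.2.1 ^ 2 * (X / A.1)| ≤ M * η + 2 * (M * η) + M * η := by
      refine (abs_add_le _ _).trans (add_le_add ((abs_sub _ _).trans (add_le_add ?_ ?_)) hβ2X)
      · rw [abs_mul, abs_of_pos hα0]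
        exact mul_le_mul hαM hz (abs_nonneg _) hM0.le
      · rw [mul_assoc, abs_mul, abs_two, abs_mul]
        have := mul_le_mul hβM hy (abs_nonneg _) hM0.le
        linarith
    have h2 : 4 * M ^ 3 * η * (1 / M ^ 2) ≤ 4 * M ^ 3 * η * disc A :=
      mul_le_mul_of_nonneg_left hD (by positivity)
    have h3 : 4 * M ^ 3 * η * (1 / M ^ 2) = 4 * M * η := by field_simp
    rw [h3] at h2
    linarith
  -- size of everything in terms of `t`
  set t := M ^ 4 * η with ht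
  have ht0 : 0 ≤ t := by positivity
  have htd : 200 * t ≤ d := by
    rw [ht]; linarith
  have k1 : |e1 - 1| ≤ t := by
    rw [he1', ht]
    exact hXα.trans (mul_le_mul_of_nonneg_right hM4 hη0)
  have k2 : |b2| ≤ 2 * t := by
    rw [ht]
    refine hb2b.trans ?_
    nlinarith [mul_le_mul_of_nonneg_right hM3 hη0]
  have k3 : |g - 1| ≤ 4 * t := by
    rw [ht]
    refine hgb.trans ?_
    nlinarith [mul_le_mul_of_nonneg_right hM5 hη0]
  set a := (e1 + g) / 2 with ha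
  set b1 := (e1 - g) / 2 with hb1
  clear_value a b1
  rw [abs_le] at k1 k2 k3
  have ka : |a - 1| ≤ 3 * t := by
    rw [ha, abs_le]
    constructor <;> linarith
  have kb : |b1| ≤ 3 * t := by
    rw [hb1, abs_le]
    constructor <;> linarith
  rw [abs_le] at ka kb
  set r := √(a ^ 2 - (b1 ^ 2 + b2 ^ 2)) with hr
  have ht1 : t ≤ 1 / 1600 := by linarith
  have hbsq : b1 ^ 2 + b2 ^ 2 ≤ 13 * t ^ 2 := by
    have u1 : b1 ^ 2 ≤ (3 * t) ^ 2 := sq_le_sq' (by linarith) kb.2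
    have u2 : b2 ^ 2 ≤ (2 * t) ^ 2 := sq_le_sq' (by linarith) k2.2
    have u3 : (3 * t) ^ 2 + (2 * t) ^ 2 = 13 * t ^ 2 := by ring
    linarith
  have hrlow : (a - 4 * t) ^ 2 ≤ a ^ 2 - (b1 ^ 2 + b2 ^ 2) := by
    have u1 : 29 * t ^ 2 ≤ 4 * t := by
      have := mul_le_mul_of_nonneg_left ht1 ht0
      have u2 : t * t = t ^ 2 := by ring
      rw [u2] at this
      linarith
    have u3 : 1 / 2 * t ≤ a * t := mul_le_mul_of_nonneg_right (by linarith) ht0
    have u4 : (a - 4 * t) ^ 2 = a ^ 2 - 8 * (a * t) + 16 * t ^ 2 := by ring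
    rw [u4]
    linarith
  have hpos : 0 ≤ a ^ 2 - (b1 ^ 2 + b2 ^ 2) := le_trans (sq_nonneg _) hrlow
  have hr2 : r ^ 2 = a ^ 2 - (b1 ^ 2 + b2 ^ 2) := Real.sq_sqrt hpos
  have hr0 : 0 ≤ r := Real.sqrt_nonneg _
  have hrl : a - 4 * t ≤ r := Real.le_sqrt_of_sq_le hrlow
  have hru : r ≤ a := by
    apply le_of_sq_le_sq _ (by linarith)
    rw [hr2]
    linarith [sq_nonneg b1, sq_nonneg b2]
  set lam := (a + r) / 2 with hlam
  have hlam0 : 1 / 2 ≤ lam := by
    rw [hlam]; linarith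
  refine ⟨lam, ⟨b1 / (2 * lam), b2 / (2 * lam)⟩, ?_, ?_, ?_⟩
  · refine core A A' hα0 a b1 b2 lam (by linarith) ?_ ?_ ?_ ?_
    · have : a + b1 = e1 := by rw [ha, hb1]; ring
      rw [this, he1]
      field_simp
    · have : a + b1 = e1 := by rw [ha, hb1]; ring
      rw [this, hb2, ← hsd, ← hq2d, mul_div_assoc', mul_div_cancel_left₀ _ (mul_pos hs0 hq20).ne']
      ring
    · have h4 : a + b1 = e1 := by rw [ha, hb1]; ring
      have h5 : a - b1 = g := by rw [ha, hb1]; ring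
      rw [h4, h5, hb2, hg, ← hsd, ← hq2d, div_pow, hs, hq2]
      have h6 : 2 * ((A'.2.1 - A.2.1 * e1) / (s * q2)) * (A.2.1 / s) * q2 =
          2 * (A'.2.1 - A.2.1 * e1) * A.2.1 / s ^ 2 := by
        field_simp
      rw [h6, hs]
      field_simp
      ring
    · rw [hlam]
      linear_combination (1 / 4) * hr2
  · rw [hlam, abs_le]
    constructor <;> linarith
  · refine (Complex.norm_le_abs_re_add_abs_im _).trans ?_
    simp only
    have h7 : |b1 / (2 * lam)| ≤ |b1| := by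
      rw [abs_div, abs_of_pos (by linarith : (0 : ℝ) < 2 * lam)]
      exact div_le_self (abs_nonneg _) (by linarith)
    have h8 : |b2 / (2 * lam)| ≤ |b2| := by
      rw [abs_div, abs_of_pos (by linarith : (0 : ℝ) < 2 * lam)]
      exact div_le_self (abs_nonneg _) (by linarith)
    have h9 : |b1| ≤ 3 * t := abs_le.2 kb
    have h10 : |b2| ≤ 2 * t := abs_le.2 k2
    linarith

end Pool.Agent.F5H.BC.H94
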