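import Pool.Agent.F5H.StmtsD

set_option autoImplicit false

open MeasureTheory

namespace Pool.Agent.F5H.BC.H94

open Pool.Agent.BTL

/-- Row C_CVR. -/
theorem c_cvr : CVRStmt := by
  intro M r0 U B hM hr0 hr1 hU hB
  have hM0 : 0 < M := by linarith
  set I : Finset ℤ := Finset.Icc ⌊-M / r0⌋ ⌊M / r0⌋ with hI
  have hMr : 1 ≤ M / r0 := by
    rw [le_div_iff₀ hr0]; linarith
  have hcard : (I.card : ℝ) ≤ 4 * M / r0 := by
    rw [hI, Int.card_Icc]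
    have h1 : ((⌊M / r0⌋ + 1 - ⌊-M / r0⌋ : ℤ) : ℝ) ≤ 4 * M / r0 := by
      push_cast
      have h2 := Int.floor_le (M / r0)
      have h3 := Int.lt_floor_add_one (-M / r0)
      have h4 : -M / r0 = -(M / r0) := by ring
      have h5 : 4 * M / r0 = 4 * (M / r0) := by ring
      rw [h4] at h3 ⊢
      rw [h5]
      linarith
    have h6 : (0 : ℝ) ≤ 4 * M / r0 := by positivity
    by_cases h7 : 0 ≤ ⌊M / r0⌋ + 1 - ⌊-M / r0⌋
    · have h8 : (((⌊M / r0⌋ + 1 - ⌊-M / r0⌋).toNat : ℕ) : ℝ) =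
          ((⌊M / r0⌋ + 1 - ⌊-M / r0⌋ : ℤ) : ℝ) := by
        exact_mod_cast congrArg (fun z : ℤ => (z : ℝ)) (Int.toNat_of_nonneg h7)
      rw [h8]
      exact h1
    · rw [Int.toNat_of_nonpos (by omega)]
      simpa using h6
  have hmemI : ∀ c : ℝ, |c| ≤ M → ⌊c / r0⌋ ∈ I := by
    intro c hc
    rw [abs_le] at hc
    rw [hI, Finset.mem_Icc]
    refine ⟨Int.floor_le_floor ?_, Int.floor_le_floor ?_⟩
    · exact div_le_div_of_nonneg_right hc.1 hr0.le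
    · exact div_le_div_of_nonneg_right hc.2 hr0.le
  have hfl : ∀ c c' : ℝ, ⌊c / r0⌋ = ⌊c' / r0⌋ → |c - c'| ≤ r0 := by
    intro c c' h
    have h1 := Int.abs_sub_lt_one_of_floor_eq_floor h
    have h2 : c - c' = (c / r0 - c' / r0) * r0 := by
      field_simp
    rw [h2, abs_mul, abs_of_pos hr0]
    nlinarith
  set cell : ℤ × ℤ × ℤ → Set ((ℝ × ℝ × ℝ) × ℝ) := fun i =>
    {a | ⌊a.1.1 / r0⌋ = i.1 ∧ ⌊a.1.2.1 / r0⌋ = i.2.1 ∧ ⌊a.1.2.2 / r0⌋ = i.2.2} with hcell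
  have hcov : U ⊆ ⋃ i ∈ I ×ˢ (I ×ˢ I), U ∩ cell i := by
    intro a ha
    have h1 := KM_abs_le hM (hU a ha)
    simp only [Prod.norm_def, Real.norm_eq_abs, sup_le_iff] at h1
    simp only [Set.mem_iUnion]
    refine ⟨(⌊a.1.1 / r0⌋, ⌊a.1.2.1 / r0⌋, ⌊a.1.2.2 / r0⌋), ?_, ha, rfl, rfl, rfl⟩
    simp only [Finset.mem_product]
    exact ⟨hmemI _ h1.1, hmemI _ h1.2.1, hmemI _ h1.2.2⟩
  have hone : ∀ i : ℤ × ℤ × ℤ, volume (U ∩ cell i) ≤ B := by
    intro i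
    rcases Set.eq_empty_or_nonempty (U ∩ cell i) with h | ⟨a, haU, hai⟩
    · rw [h, measure_empty]
      exact zero_le
    · refine le_trans (measure_mono ?_) (hB a haU)
      rintro a' ⟨ha'U, ha'i⟩
      refine ⟨ha'U, ?_⟩
      simp only [Set.mem_setOf_eq, Prod.norm_def, Real.norm_eq_abs, sup_le_iff, Prod.fst_sub,
        Prod.snd_sub]
      exact ⟨hfl _ _ (ha'i.1.trans hai.1.symm), hfl _ _ (ha'i.2.1.trans hai.2.1.symm),
        hfl _ _ (ha'i.2.2.trans hai.2.2.symm)⟩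
  calc volume U ≤ volume (⋃ i ∈ I ×ˢ (I ×ˢ I), U ∩ cell i) := measure_mono hcov
    _ ≤ ∑ i ∈ I ×ˢ (I ×ˢ I), volume (U ∩ cell i) := measure_biUnion_finset_le _ _
    _ ≤ ∑ _i ∈ I ×ˢ (I ×ˢ I), B := Finset.sum_le_sum fun i _ => hone i
    _ = ((I ×ˢ (I ×ˢ I)).card : ENNReal) * B := by
        rw [Finset.sum_const, nsmul_eq_mul]
    _ ≤ ENNReal.ofReal ((4 * M / r0) ^ 3) * B := by
        gcongr
        rw [Finset.card_product, Finset.card_product]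
        have h1 : ((I.card * (I.card * I.card) : ℕ) : ENNReal) =
            ENNReal.ofReal (((I.card * (I.card * I.card) : ℕ) : ℝ)) := by
          rw [ENNReal.ofReal_natCast]
        rw [h1]
        apply ENNReal.ofReal_le_ofReal
        push_cast
        have h2 : (0 : ℝ) ≤ I.card := Nat.cast_nonneg _
        calc (I.card : ℝ) * (I.card * I.card) = (I.card : ℝ) ^ 3 := by ring
          _ ≤ (4 * M / r0) ^ 3 := pow_le_pow_left₀ h2 hcard 3

end Pool.Agent.F5H.BC.H94
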